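import Pool.Agent.H.MP_d17fc5_co.B

namespace Pool.Agent.Results.MP_d17fc5_co.Holds
open Finset

/-- The i-th largest part (i counted from 1), and 0 past the last part. -/
def row {n : ℕ} (p : n.Partition) (i : ℕ) : ℕ := (p.parts.sort (· ≥ ·)).getD (i - 1) 0

/-- The j-th part of the conjugate partition. -/
def col {n : ℕ} (p : n.Partition) (j : ℕ) : ℕ := (p.parts.filter (j ≤ ·)).card

/-- The number of cells (i, j) of the Young diagram with hook length 2. -/
def hooks2 {n : ℕ} (p : n.Partition) : ℕ :=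
  ((Icc 1 n ×ˢ Icc 1 n).filter fun c : ℕ × ℕ =>
    c.2 ≤ row p c.1 ∧ (row p c.1 : ℤ) + (col p c.2 : ℤ) - c.1 - c.2 + 1 = 2).card

def a2 (L m n : ℕ) : ℕ :=
  (univ.filter fun p : n.Partition => (∀ i ∈ p.parts, Odd i ∧ i ≤ 2 * L - 1) ∧ hooks2 p = m).card

def b2 (L m n : ℕ) : ℕ :=
  (univ.filter fun p : n.Partition => (p.parts.Nodup ∧ ∀ i ∈ p.parts, i ≤ L) ∧ hooks2 p = m).card

def A (L n : ℕ) : ℕ := ∑ m ∈ range (n * n + 1), m.choose 2 * a2 L m n

def B (L n : ℕ) : ℕ := ∑ m ∈ range (n * n + 1), m.choose 2 * b2 L m n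

theorem result (L : ℕ) (_hL : 1 ≤ L) (n : ℕ) : B L n ≤ A L n := by
  have key : ∀ (q : n.Partition → Prop) [DecidablePred q],
      ∑ m ∈ range (n * n + 1), m.choose 2 * (univ.filter fun p : n.Partition => q p ∧ hooks2 p = m).card
        = ∑ p ∈ univ.filter q, (hooks2 p).choose 2 := by
    intro q _
    rw [← Finset.sum_fiberwise_of_maps_to (s := univ.filter q) (t := range (n * n + 1)) (g := hooks2)]
    · refine Finset.sum_congr rfl fun m _ => ?_
      rw [Finset.filter_filter, Finset.sum_congr rfl fun p hp => by rw [(mem_filter.1 hp).2.2]]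
      simp [mul_comm]
    · intro p _
      have := Finset.card_filter_le (Icc 1 n ×ˢ Icc 1 n) fun c : ℕ × ℕ =>
        c.2 ≤ row p c.1 ∧ (row p c.1 : ℤ) + (col p c.2 : ℤ) - c.1 - c.2 + 1 = 2
      simp only [card_product, Nat.card_Icc, Nat.add_sub_cancel] at this
      exact mem_range.2 (Nat.lt_succ_of_le this)
  unfold A B a2 b2
  rw [key, key]
  exact Pool.Agent.H.MP_d17fc5_co.final L n

end Pool.Agent.Results.MP_d17fc5_co.Holds
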